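import Pool.Agent.H27.T2.FE

/-!
Definitions for the project MCL (local means and products of many clusters) on `MP_c59857_nt`.
-/

set_option autoImplicit false

open Finset Filter Topology

namespace Pool.Agent.H28.MCL

open Pool.Agent.H24.MR (lam FinAddInv)
open Pool.Agent.H24.T2 (Fr MRprop)
open Pool.Agent.H27.T2 (bi bl good)

/-! ## Logarithmic windows -/

open Classical in
/-- indicator function of a property -/
noncomputable def ind (P : ℕ → Prop) (n : ℕ) : ℝ := if P n then 1 else 0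

/-- the function `b` has logarithmic mean at most `δ` on all long windows -/
def Bd (b : ℕ → ℝ) (δ : ℝ) : Prop :=
  ∃ K : ℕ, ∀ x y : ℕ, 0 < x → K * x ≤ y →
    ∑ n ∈ Finset.Icc x y, b n / n ≤ δ * Real.log ((y : ℝ) / x)

open Classical in
/-- logarithmic density along an ultrafilter `U` and the windows `[x j, y j]`. -/
noncomputable def ldB (U : Ultrafilter ℕ) (x y : ℕ → ℕ) (A : Set ℕ) : ℝ :=
  limUnder (U : Filter ℕ)
    (fun j => (∑ n ∈ (Finset.Icc (x j) (y j)).filter (fun n => n ∈ A), (1 : ℝ) / n)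
      / Real.log ((y j : ℝ) / x j))

/-- admissible windows -/
def Aw (U : Ultrafilter ℕ) (x y : ℕ → ℕ) : Prop :=
  (∀ j, 0 < x j) ∧ Tendsto (fun j => Real.log ((y j : ℝ) / x j)) (U : Filter ℕ) atTop

/-! ## Windows -/

/-- sum of `f` over the `m` in `(n, n + h]` with `m ≡ c [MOD Q]` -/
noncomputable def ws (f : ℕ → ℝ) (Q c n h : ℕ) : ℝ :=
  ∑ m ∈ (Finset.Ioc n (n + h)).filter (fun m => m ≡ c [MOD Q]), f m

/-- bad windows -/
def Bad (f : ℕ → ℝ) (κ : ℝ) (Q c h n : ℕ) : Prop := (1 - κ) * h < Q * |ws f Q c n h|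

open Classical in
/-- local sign function (blocks of length `h`, offset `o`) -/
noncomputable def lc (f : ℕ → ℝ) (κ : ℝ) (Q c h o m : ℕ) : ℤ :=
  if 1 ≤ bl h o m ∧ 1 ≤ bi h o m ∧ Bad f κ Q c h (bl h o m) then
    (if 0 ≤ ws f Q c (bl h o m) h then 1 else -1) else 0

open Classical in
/-- data of a level: a slowly varying sign `τ` which is the value of `f` on most of its support,
in the class `c` mod `Q` -/
def Lv (f : ℕ → ℝ) (Q c : ℕ) (δ θ ζ : ℝ) (x y : ℕ) (τ : ℕ → ℤ) : Prop :=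
  (∀ m, τ m = 0 ∨ τ m = 1 ∨ τ m = -1) ∧
  ∑ m ∈ (Finset.Icc x y).filter (fun m => τ m ≠ τ (m + 1)), (1 : ℝ) / m ≤
    ζ * Real.log ((y : ℝ) / x) ∧
  δ * Real.log ((y : ℝ) / x) ≤
    ∑ m ∈ (Finset.Icc x y).filter (fun m => τ m ≠ 0), (1 : ℝ) / m ∧
  ∑ m ∈ (Finset.Icc x y).filter (fun m => m ≡ c [MOD Q] ∧ τ m ≠ 0 ∧ f m ≠ (τ m : ℝ)),
    (1 : ℝ) / m ≤ θ * Real.log ((y : ℝ) / x)

/-- product of values of the Liouville function at the shifts in `S` -/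
noncomputable def gs (S : Finset ℤ) (y : ℕ) : ℝ := ∏ a ∈ S, lam ((y : ℤ) + a).toNat

/-- shifts with odd exponents -/
def od {r : ℕ} (α : Fin r → ℤ) (ε : Fin r → ℕ) : Finset ℤ :=
  (Finset.univ.filter (fun i => Odd (ε i))).image α

/-- maximal function at most `θ` at `N` (both sides, all lengths up to `N`) -/
def Gd (b : ℕ → ℝ) (θ : ℝ) (N : ℕ) : Prop :=
  ∀ H : ℕ, 1 ≤ H → H ≤ N → ∑ n ∈ Finset.Ioc (N - H) N, b n ≤ θ * H ∧
    ∑ n ∈ Finset.Ioc N (N + H), b n ≤ θ * H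

/-! ## Products of clusters -/

/-- the `n` in `(N - H, N]` with `n ≡ n₀ [MOD q]` -/
def iv (N H q n₀ : ℕ) : Finset ℕ := (Finset.Ioc (N - H) N).filter (fun n => n ≡ n₀ [MOD q])

/-- the `t` in `[1, T] ^ m` with `t l ≡ τ l [MOD q]` for all `l` -/
def bx (m T q : ℕ) (τ : Fin m → ℕ) : Finset (Fin m → ℕ) :=
  (Fintype.piFinset (fun _ : Fin m => Finset.Icc 1 T)).filter (fun t => ∀ l, t l ≡ τ l [MOD q])

/-- restriction of `g l` to the classes in `A l` mod `W` -/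
noncomputable def gc {m : ℕ} (W : ℕ) (A : Fin m → Finset ℕ) (g : Fin m → ℕ → ℝ) (l : Fin m)
    (y : ℕ) : ℝ := if y % W ∈ A l then g l y else 0

/-- the sum over `t` of the absolute values -/
noncomputable def lhs {m : ℕ} (q n₀ : ℕ) (τ : Fin m → ℕ) (F : Fin m → ℕ → ℝ) (w : ℕ → ℝ)
    (N H T : ℕ) : ℝ :=
  ∑ t ∈ bx m T q τ, |∑ n ∈ iv N H q n₀, w n * ∏ l, F l (n + t l)|

/-- the trivial bound -/
noncomputable def rhs {m : ℕ} (q n₀ : ℕ) (τ : Fin m → ℕ) (F : Fin m → ℕ → ℝ)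
    (N H T : ℕ) : ℝ :=
  ∑ t ∈ bx m T q τ, ∑ n ∈ iv N H q n₀, ∏ l, |F l (n + t l)|

/-- the expected size of the trivial bound -/
noncomputable def mm {m : ℕ} (q W : ℕ) (A : Fin m → Finset ℕ) (H T : ℕ) : ℝ :=
  (H : ℝ) / q * ∏ l, ((A l).card * ((T : ℝ) / W))

/-- the same without `H / q`, upper bound -/
noncomputable def pp {m : ℕ} (W : ℕ) (A : Fin m → Finset ℕ) (T : ℕ) : ℝ :=
  ∏ l, ((A l).card * ((T : ℝ) / W + 1))

/-- the sum over `t` in the classes `A l` of the product of two values of `g l` at distance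
`j W` -/
noncomputable def yy {m : ℕ} (W : ℕ) (A : Fin m → Finset ℕ) (g : Fin m → ℕ → ℝ) (T : ℕ)
    (l : Fin m) (j n : ℕ) : ℝ :=
  |∑ t ∈ (Finset.Icc 1 T).filter (fun t => (n + t) % W ∈ A l), g l (n + t) * g l (n + t + j * W)|

/-- proportion of the classes in `A l` for which the window at `z` is bad -/
noncomputable def bc {m : ℕ} (W : ℕ) (κ : ℝ) (h : ℕ) (A : Fin m → Finset ℕ)
    (g : Fin m → ℕ → ℝ) (l : Fin m) (j z : ℕ) : ℝ :=
  1 / ((A l).card : ℝ) *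
    ∑ a ∈ A l, ind (Bad (fun y => g l y * g l (y + j * W)) κ W a h) z

/-- proportion of the bad windows at `z` -/
noncomputable def bb {m : ℕ} (D W : ℕ) (κ : ℝ) (h : ℕ) (A : Fin m → Finset ℕ)
    (g : Fin m → ℕ → ℝ) (z : ℕ) : ℝ :=
  1 / ((m : ℝ) * ((D : ℝ) - 1)) * ∑ l, ∑ j ∈ Finset.Ico 1 D, bc W κ h A g l j z

/-- proportion of the clusters with an error at `z` -/
noncomputable def ee {m : ℕ} (q n₀ : ℕ) (τ : Fin m → ℕ) (F G : Fin m → ℕ → ℝ) (z : ℕ) : ℝ :=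
  1 / (m : ℝ) * ∑ l, ind (fun y => y ≡ n₀ + τ l [MOD q] ∧ F l y ≠ G l y) z

/-- the bad windows have small density, for all classes and clusters -/
def BBp (k m D : ℕ) (κ δ : ℝ) : Prop :=
  ∀ (S : Fin m → Finset ℤ) (W : ℕ) (A : Fin m → Finset ℕ),
    (∀ l, (S l).Nonempty ∧ (S l).card ≤ k) → 0 < W → Even W → (∀ l, A l ⊆ Finset.range W) →
    ∃ h₀ : ℕ, ∀ h, h₀ ≤ h → Bd (bb D W κ h A (fun l => gs (S l))) δ

/-- the deterministic bound at a good `N` -/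
def DTp (m D : ℕ) (κ θ V : ℝ) : Prop :=
  ∀ q W : ℕ, 0 < q → q ∣ W → 0 < W → ∀ ζ : ℝ, 0 < ζ → ∃ h₁ : ℕ, ∀ h, h₁ ≤ h → ∃ K : ℕ,
    ∀ (n₀ : ℕ) (τ : Fin m → ℕ) (A : Fin m → Finset ℕ) (g : Fin m → ℕ → ℝ),
      (∀ l, A l ⊆ Finset.range W) → (∀ l, ∀ a ∈ A l, a ≡ n₀ + τ l [MOD q]) →
      (∀ l y, |g l y| ≤ 1) → ∀ N H T : ℕ, K ≤ H → H ≤ N → K ≤ T → T ≤ N →
      Gd (bb D W κ h A g) θ N → ∀ w : ℕ → ℝ, (∀ n, |w n| ≤ 1) →
      (lhs q n₀ τ (gc W A g) w N H T) ^ 2 ≤ (mm q W A H T) ^ 2 * (V + ζ)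

open Classical in
/-- the theorem with the constant `η` -/
def Cor (k m : ℕ) (δ η : ℝ) : Prop :=
  ∀ (r : Fin m → ℕ) (α : (l : Fin m) → Fin (r l) → ℤ) (ε : (l : Fin m) → Fin (r l) → ℕ)
    (q n₀ : ℕ) (τ : Fin m → ℕ), (∀ l, Function.Injective (α l)) → (∀ l i, 1 ≤ ε l i) →
    (∀ l, ∃ i, Odd (ε l i)) → (∀ l, (Finset.univ.filter (fun i => Odd (ε l i))).card ≤ k) →
    0 < q → ∃ K : ℕ, ∀ x y : ℕ, 0 < x → K * x ≤ y →
      ∑ N ∈ (Finset.Icc x y).filter (fun N => ∃ (H T : ℕ) (w : ℕ → ℝ), K ≤ H ∧ H ≤ N ∧ K ≤ T ∧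
          T ≤ N ∧ (∀ n, |w n| ≤ 1) ∧
          η * rhs q n₀ τ (fun l => Fr (α l) (ε l)) N H T <
            lhs q n₀ τ (fun l => Fr (α l) (ε l)) w N H T),
        (1 : ℝ) / N ≤ δ * Real.log ((y : ℝ) / x)

end Pool.Agent.H28.MCL
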