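import Pool.Agent.H28.MCL.TargetsU

/-! Module BBU of the project MCL. -/

set_option autoImplicit false

open Finset Filter Topology

namespace Pool.Agent.H28.MCL

theorem bad_mono {f : ℕ → ℝ} {κ κ' : ℝ} (h : κ' ≤ κ) {Q c H n : ℕ} (hb : Bad f κ' Q c H n) :
    Bad f κ Q c H n := by
  unfold Bad at hb ⊢
  refine lt_of_le_of_lt (mul_le_mul_of_nonneg_right ?_ (Nat.cast_nonneg H)) hb
  linarith

theorem ind_mono {P P' : ℕ → Prop} (h : ∀ n, P n → P' n) (n : ℕ) : ind P n ≤ ind P' n := by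
  unfold ind
  by_cases h1 : P n
  · rw [if_pos h1, if_pos (h n h1)]
  · rw [if_neg h1]
    split_ifs <;> norm_num

theorem bd_mono {b b' : ℕ → ℝ} {δ : ℝ} (h : ∀ n, b n ≤ b' n) (hb : Bd b' δ) : Bd b δ := by
  obtain ⟨K, hK⟩ := hb
  refine ⟨K, fun x y hx hy => (Finset.sum_le_sum fun n _ => ?_).trans (hK x y hx hy)⟩
  exact div_le_div_of_nonneg_right (h n) (Nat.cast_nonneg n)

theorem bbu (hT : T_TLU) (hZ : T_ZCO) (hS : T_SYM) (hB : T_BCO) : T_BBU := by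
  obtain ⟨c, hc, h⟩ := hT
  have hc1 : 0 < min c 1 := lt_min hc one_pos
  refine ⟨min c 1 / 16, by positivity, ?_, ?_⟩
  · have := min_le_right c (1 : ℝ)
    linarith
  intro δ hδ hδ1 k m D hm hD
  have hδ3 : 0 < δ ^ 4 := by positivity
  have hδ31 : δ ^ 4 ≤ 1 := pow_le_one₀ hδ.le hδ1
  have hκ : 0 < min c 1 / 16 * δ ^ 4 := by positivity
  have hκ1 : min c 1 / 16 * δ ^ 4 ≤ 1 := by
    have h1 := min_le_right c (1 : ℝ)
    have h2 : min c 1 / 16 * δ ^ 4 ≤ 1 * 1 := mul_le_mul (by linarith) hδ31 hδ3.le (by norm_num)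
    linarith
  refine hB k δ _ hδ hκ hκ1 (fun S W a Δ hSn _ hW hWe hΔ => ?_) m D hm hD
  obtain ⟨S', hn', _, he⟩ := hS S Δ hSn hΔ
  have e : (fun y => gs S y * gs S (y + Δ)) = gs S' := funext he
  rw [e]
  refine hZ δ _ S' W a hδ hκ hκ1 hn' hW fun k' β hk' hβ => ?_
  obtain ⟨h₀, hh⟩ := h (δ / 2) (by linarith) (by linarith) k' β W a hk' hW hWe hβ
  refine ⟨h₀, fun H hH => bd_mono (fun n => ind_mono (fun n' hn => bad_mono ?_ hn) n) (hh H hH)⟩
  have h1 := min_le_left c (1 : ℝ)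
  have h2 : c * (δ / 2) ^ 4 = c / 16 * δ ^ 4 := by ring
  rw [h2]
  exact mul_le_mul_of_nonneg_right (by linarith) hδ3.le

end Pool.Agent.H28.MCL
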