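import Pool.Agent.H28.MCL.TargetsU

/-! Modules CBU, CAU and FIU of the project MCL. -/

set_option autoImplicit false

open Finset Filter Topology

namespace Pool.Agent.H28.MCL

theorem sqrt_one_sub_le {x : ℝ} (hx0 : 0 ≤ x) (hx1 : x ≤ 1) : Real.sqrt (1 - x) ≤ 1 - x / 2 := by
  rw [Real.sqrt_le_left (by linarith)]
  nlinarith

theorem cbu (hR : T_BBU) (hD : T_DTB) (hG : T_GEN) : T_CBU := by
  obtain ⟨c, hc, hc1, h⟩ := hR
  refine ⟨c / 21743271936, by positivity, by linarith, ?_⟩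
  intro δ hδ hδ1 k m hm
  have hm0 : (1 : ℝ) ≤ m := by exact_mod_cast hm
  have hm0' : (0 : ℝ) < m := by linarith
  have hθ : (0 : ℝ) < 1 / (8 * m) := by positivity
  obtain ⟨δ', hδ'⟩ : ∃ δ' : ℝ, δ' = δ * (1 / (8 * m)) / 24 := ⟨_, rfl⟩
  have hδ'0 : 0 < δ' := by rw [hδ']; positivity
  have hδ'1 : δ' ≤ 1 := by
    rw [hδ']
    have : 1 / (8 * (m : ℝ)) ≤ 1 := by
      rw [div_le_one (by positivity)]
      linarith
    nlinarith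
  have hBB := h δ' hδ'0 hδ'1 k m 2 hm le_rfl
  obtain ⟨κ, hκd⟩ : ∃ κ : ℝ, κ = c * δ' ^ 4 := ⟨_, rfl⟩
  rw [← hκd, hδ'] at hBB
  have hκ : 0 < κ := by rw [hκd]; positivity
  have hκ1 : κ ≤ 1 := by
    rw [hκd]
    have h1 : δ' ^ 4 ≤ 1 := pow_le_one₀ hδ'0.le hδ'1
    nlinarith [pow_pos hδ'0 4]
  have h1 : (8 : ℝ) * m * (1 / (8 * m)) ≤ 1 := by
    rw [mul_one_div_cancel (by positivity)]
  have hV0 : 0 ≤ 1 - κ / 4 := by linarith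
  have hs : Real.sqrt (1 - κ / 4) ≤ 1 - κ / 8 := by
    have := sqrt_one_sub_le (x := κ / 4) (by linarith) (by linarith)
    linarith
  have he : 1 - c / 21743271936 * δ ^ 4 / (m : ℝ) ^ 4 = 1 - κ / 16 := by
    rw [hκd, hδ']
    field_simp
    ring
  rw [he]
  exact hG k m 2 δ (1 / (8 * m)) κ (1 - κ / 4) _ hm le_rfl hδ hθ hκ hκ1 hV0 (by linarith)
    hBB (hD m κ _ hm hκ hκ1 hθ h1)

theorem cau (hR : T_BBU) (hD : T_DTA) (hG : T_GEN) : T_CAU := by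
  obtain ⟨c₁, hc₁, hc₁1, h⟩ := hR
  obtain ⟨c, hcd⟩ : ∃ c : ℝ, c = c₁ / (96 * 24576 ^ 4) := ⟨_, rfl⟩
  have hc : 0 < c := by rw [hcd]; positivity
  have hc1 : c ≤ 1 := by
    rw [hcd, div_le_one (by positivity)]
    norm_num
    linarith
  refine ⟨c, hc, hc1, ?_⟩
  intro δ hδ hδ1 k m hm hη1
  have hm0 : (1 : ℝ) ≤ m := by exact_mod_cast hm
  have hm0' : (0 : ℝ) < m := by linarith
  obtain ⟨y, hy⟩ : ∃ y : ℝ, y = (1 / (δ ^ 4 * (m : ℝ))) ^ ((1 : ℝ) / 9) := ⟨_, rfl⟩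
  rw [← hy] at hη1 ⊢
  have hX : 0 < 1 / (δ ^ 4 * (m : ℝ)) := by positivity
  have hy0 : 0 < y := by rw [hy]; exact Real.rpow_pos_of_pos hX _
  have hy9 : y ^ 9 = 1 / (δ ^ 4 * (m : ℝ)) := by
    rw [hy, ← Real.rpow_natCast, ← Real.rpow_mul hX.le]
    norm_num
  obtain ⟨η, hηd⟩ : ∃ η : ℝ, η = y / c := ⟨_, rfl⟩
  rw [← hηd] at hη1 ⊢
  have hη : 0 < η := by rw [hηd]; positivity
  have hη2 : 0 < η ^ 2 := by positivity
  have hyη : y = c * η := by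
    rw [hηd]
    field_simp
  have hkey : δ ^ 4 * m * η ^ 8 * (c ^ 9 * η) = 1 := by
    have h1 : (c * η) ^ 9 = 1 / (δ ^ 4 * (m : ℝ)) := by rw [← hyη]; exact hy9
    have h2 : δ ^ 4 * m * η ^ 8 * (c ^ 9 * η) = δ ^ 4 * m * (c * η) ^ 9 := by ring
    rw [h2, h1, mul_one_div_cancel (by positivity)]
  obtain ⟨D₀, hD₀⟩ := exists_nat_ge (16 / η ^ 2)
  obtain ⟨D, hDd⟩ : ∃ D : ℕ, D = max 2 D₀ := ⟨_, rfl⟩
  have hD2 : 2 ≤ D := by rw [hDd]; exact le_max_left _ _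
  have hDr : 16 / η ^ 2 ≤ (D : ℝ) := hD₀.trans (by rw [hDd]; exact_mod_cast le_max_right 2 D₀)
  have hD0 : (0 : ℝ) < D := by
    have : (2 : ℝ) ≤ D := by exact_mod_cast hD2
    linarith
  have hDi : 1 / (D : ℝ) ≤ η ^ 2 / 16 := by
    rw [div_le_iff₀ hη2] at hDr
    rw [div_le_iff₀ hD0]
    nlinarith
  obtain ⟨θ, hθ⟩ : ∃ θ : ℝ, θ = η ^ 2 / 1024 := ⟨_, rfl⟩
  have hθ0 : 0 < θ := by rw [hθ]; positivity
  have hη21 : η ^ 2 ≤ 1 := pow_le_one₀ hη.le hη1.le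
  obtain ⟨δ', hδ'⟩ : ∃ δ' : ℝ, δ' = δ * θ / 24 := ⟨_, rfl⟩
  have hδ'0 : 0 < δ' := by rw [hδ']; positivity
  have hδ'1 : δ' ≤ 1 := by
    rw [hδ', hθ]
    nlinarith
  have hBB := h δ' hδ'0 hδ'1 k m D hm hD2
  obtain ⟨κ, hκd⟩ : ∃ κ : ℝ, κ = c₁ * δ' ^ 4 := ⟨_, rfl⟩
  rw [← hκd, hδ'] at hBB
  have hκ : 0 < κ := by rw [hκd]; positivity
  have hκ1 : κ ≤ 1 := by
    rw [hκd]
    have h1 : δ' ^ 4 ≤ 1 := pow_le_one₀ hδ'0.le hδ'1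
    nlinarith [pow_pos hδ'0 4]
  -- the exponential
  have hκm : κ * m * (c ^ 9 * η) = c₁ / 24576 ^ 4 := by
    have h1 : κ * m = c₁ / 24576 ^ 4 * (δ ^ 4 * m * η ^ 8) := by
      rw [hκd, hδ', hθ]
      field_simp
      ring
    rw [h1, mul_assoc, hkey, mul_one]
  have hc7 : c ^ 9 ≤ c := by
    have := pow_le_pow_of_le_one hc.le hc1 (show 1 ≤ 9 by norm_num)
    simpa using this
  have hA : 96 ≤ κ * m * η := by
    have h1 : κ * m * η * c ^ 9 = c₁ / 24576 ^ 4 := by rw [← hκm]; ring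
    have h2 : c₁ / 24576 ^ 4 = 96 * c := by
      rw [hcd]
      field_simp
    have h3 : 0 ≤ κ * m * η := by positivity
    have h4 : 96 * c ≤ κ * m * η * c := by
      rw [← h2, ← h1]
      exact mul_le_mul_of_nonneg_left hc7 h3
    exact le_of_mul_le_mul_right h4 hc
  obtain ⟨s, hs⟩ : ∃ s : ℝ, s = Real.sqrt (1 - κ / 4) := ⟨_, rfl⟩
  have hs0 : 0 ≤ s := by rw [hs]; exact Real.sqrt_nonneg _
  have hs1 : s ≤ Real.exp (-(κ / 8)) := by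
    have h1 := sqrt_one_sub_le (x := κ / 4) (by linarith) (by linarith)
    have h2 := Real.add_one_le_exp (-(κ / 8))
    rw [hs]
    linarith
  have hsm : s ^ m ≤ η ^ 2 / 64 := by
    have h1 : s ^ m ≤ Real.exp (-(κ / 8)) ^ m := pow_le_pow_left₀ hs0 hs1 m
    rw [← Real.exp_nat_mul] at h1
    obtain ⟨t, ht⟩ : ∃ t : ℝ, t = κ * m / 8 := ⟨_, rfl⟩
    have ht0 : 0 ≤ t := by rw [ht]; positivity
    have htη : 12 ≤ t * η := by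
      rw [ht]
      linarith
    have h2 : (m : ℝ) * -(κ / 8) = -t := by rw [ht]; ring
    rw [h2, Real.exp_neg] at h1
    have h3 := Real.quadratic_le_exp_of_nonneg ht0
    have h4 : 64 / η ^ 2 ≤ Real.exp t := by
      rw [div_le_iff₀ hη2]
      have h5 : 144 ≤ t ^ 2 * η ^ 2 := by nlinarith
      have h6 : t ^ 2 / 2 ≤ Real.exp t := by linarith
      have h7 : t ^ 2 / 2 * η ^ 2 ≤ Real.exp t * η ^ 2 := mul_le_mul_of_nonneg_right h6 hη2.le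
      linarith
    refine h1.trans ?_
    rw [inv_le_comm₀ (Real.exp_pos t) (by positivity), inv_div]
    exact h4
  refine hG k m D δ θ κ (1 / D + 4 * s ^ m + 64 * θ) η hm hD2 hδ hθ0 hκ hκ1 (by positivity) ?_
    hBB (by rw [hs]; exact hD m D κ θ hm hD2 hκ hκ1 hθ0)
  rw [Real.sqrt_lt' hη, hθ]
  linarith

theorem rhs_nonneg' {m : ℕ} (q n₀ : ℕ) (τ : Fin m → ℕ) (F : Fin m → ℕ → ℝ) (N H T : ℕ) :
    0 ≤ rhs q n₀ τ F N H T :=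
  Finset.sum_nonneg fun _ _ => Finset.sum_nonneg fun _ _ => Finset.prod_nonneg
    fun _ _ => abs_nonneg _

theorem cor_mono' {k m : ℕ} {δ η η' : ℝ} (h : Cor k m δ η) (hη : η ≤ η') : Cor k m δ η' := by
  classical
  intro r α ε q n₀ τ h1 h2 h3 h4 h5
  obtain ⟨K, hK⟩ := h r α ε q n₀ τ h1 h2 h3 h4 h5
  refine ⟨K, fun x y hx hy => (Finset.sum_le_sum_of_subset_of_nonneg ?_ ?_).trans (hK x y hx hy)⟩
  · intro N hN
    rw [mem_filter] at hN ⊢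
    obtain ⟨hN1, H, T, w, a1, a2, a3, a4, a5, a6⟩ := hN
    exact ⟨hN1, H, T, w, a1, a2, a3, a4, a5,
      lt_of_le_of_lt (mul_le_mul_of_nonneg_right hη (rhs_nonneg' _ _ _ _ _ _ _)) a6⟩
  · intro i _ _
    positivity

theorem fiu (hA : T_CAU) (hB : T_CBU) : T_FIU := by
  obtain ⟨c₁, h1, h1', hA⟩ := hA
  obtain ⟨c₂, h2, h2', hB⟩ := hB
  have hc : 0 < min c₁ c₂ := lt_min h1 h2
  refine ⟨min c₁ c₂, hc, fun δ hδ hδ1 k m hm => ?_⟩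
  have hm0 : (0 : ℝ) < m := by exact_mod_cast hm
  have hX : 0 ≤ (1 / (δ ^ 4 * (m : ℝ))) ^ ((1 : ℝ) / 9) := by positivity
  have e1 : 1 - c₂ * δ ^ 4 / (m : ℝ) ^ 4 ≤ 1 - min c₁ c₂ * δ ^ 4 / (m : ℝ) ^ 4 := by
    have : min c₁ c₂ * δ ^ 4 / (m : ℝ) ^ 4 ≤ c₂ * δ ^ 4 / (m : ℝ) ^ 4 :=
      div_le_div_of_nonneg_right (mul_le_mul_of_nonneg_right (min_le_right _ _) (by positivity))
        (by positivity)
    linarith
  have e2 : (1 / (δ ^ 4 * (m : ℝ))) ^ ((1 : ℝ) / 9) / c₁ ≤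
      (1 / (δ ^ 4 * (m : ℝ))) ^ ((1 : ℝ) / 9) / min c₁ c₂ :=
    div_le_div_of_nonneg_left hX hc (min_le_left _ _)
  rcases min_choice (1 - min c₁ c₂ * δ ^ 4 / (m : ℝ) ^ 4)
    ((1 / (δ ^ 4 * (m : ℝ))) ^ ((1 : ℝ) / 9) / min c₁ c₂) with h | h
  · rw [h]
    exact cor_mono' (hB δ hδ hδ1 k m hm) e1
  · rw [h]
    by_cases hlt : (1 / (δ ^ 4 * (m : ℝ))) ^ ((1 : ℝ) / 9) / c₁ < 1
    · exact cor_mono' (hA δ hδ hδ1 k m hm hlt) e2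
    · refine cor_mono' (hB δ hδ hδ1 k m hm) ?_
      have h3 : 0 ≤ c₂ * δ ^ 4 / (m : ℝ) ^ 4 := by positivity
      push Not at hlt
      linarith

end Pool.Agent.H28.MCL
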