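import Pool.Agent.H28.MCL.Targets

/-! Module FIN of the project MCL. -/

set_option autoImplicit false

open Finset Filter Topology

namespace Pool.Agent.H28.MCL

theorem rhs_nonneg {m : ℕ} (q n₀ : ℕ) (τ : Fin m → ℕ) (F : Fin m → ℕ → ℝ) (N H T : ℕ) :
    0 ≤ rhs q n₀ τ F N H T :=
  Finset.sum_nonneg fun _ _ => Finset.sum_nonneg fun _ _ => Finset.prod_nonneg
    fun _ _ => abs_nonneg _

theorem cor_mono {k m : ℕ} {δ η η' : ℝ} (h : Cor k m δ η) (hη : η ≤ η') : Cor k m δ η' := by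
  classical
  intro r α ε q n₀ τ h1 h2 h3 h4 h5
  obtain ⟨K, hK⟩ := h r α ε q n₀ τ h1 h2 h3 h4 h5
  refine ⟨K, fun x y hx hy => (Finset.sum_le_sum_of_subset_of_nonneg ?_ ?_).trans (hK x y hx hy)⟩
  · intro N hN
    rw [mem_filter] at hN ⊢
    obtain ⟨hN1, H, T, w, a1, a2, a3, a4, a5, a6⟩ := hN
    exact ⟨hN1, H, T, w, a1, a2, a3, a4, a5,
      lt_of_le_of_lt (mul_le_mul_of_nonneg_right hη (rhs_nonneg _ _ _ _ _ _ _)) a6⟩
  · intro i _ _
    positivity

theorem fin (hA : T_COA) (hB : T_COB) : T_FIN := by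
  classical
  intro k δ hδ
  have hA' : ∀ i : ℕ, ∃ m₀ : ℕ, ∀ m, m₀ ≤ m → 1 ≤ m → Cor k m δ (1 / ((i : ℝ) + 1)) :=
    fun i => hA k δ _ hδ (by positivity)
  choose M hM using hA'
  have hB' : ∀ m : ℕ, ∃ η : ℝ, 0 < η ∧ η < 1 ∧ (1 ≤ m → Cor k m δ η) := by
    intro m
    rcases Nat.eq_zero_or_pos m with h | h
    · exact ⟨1 / 2, by norm_num, by norm_num, fun h' => absurd h' (by omega)⟩
    · obtain ⟨η, a, b, c⟩ := hB k m δ hδ h
      exact ⟨η, a, b, fun _ => c⟩
  choose E hE0 hE1 hE using hB'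
  -- the largest level available at `m`
  set L : ℕ → Finset ℕ := fun m => (range (m + 1)).filter (fun i => M i ≤ m) with hL
  set ρ : ℕ → ℝ := fun m => if h : (L m).Nonempty then
    min (E m) (1 / (((L m).max' h : ℕ) + 1 : ℝ)) else E m with hρ
  refine ⟨ρ, ?_, ?_, ?_⟩
  · intro m _
    simp only [hρ]
    split_ifs with h
    · exact (min_le_left _ _).trans_lt (hE1 m)
    · exact hE1 m
  · rw [Metric.tendsto_atTop]
    intro e he
    obtain ⟨i, hi⟩ := exists_nat_one_div_lt he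
    refine ⟨max i (M i), fun m hm => ?_⟩
    have hmi : i ∈ L m := by
      simp only [hL, mem_filter, mem_range]
      exact ⟨Nat.lt_succ_of_le ((le_max_left _ _).trans hm), (le_max_right _ _).trans hm⟩
    have hne : (L m).Nonempty := ⟨i, hmi⟩
    have hle : i ≤ (L m).max' hne := Finset.le_max' _ _ hmi
    have h0 : 0 < ρ m := by
      simp only [hρ, dif_pos hne]
      exact lt_min (hE0 m) (by positivity)
    have h1 : ρ m ≤ 1 / ((i : ℝ) + 1) := by
      simp only [hρ, dif_pos hne]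
      refine (min_le_right _ _).trans (one_div_le_one_div_of_le (by positivity) ?_)
      have : (i : ℝ) ≤ ((L m).max' hne : ℕ) := by exact_mod_cast hle
      linarith
    rw [Real.dist_eq, sub_zero, abs_of_pos h0]
    exact h1.trans_lt hi
  · intro m hm
    simp only [hρ]
    split_ifs with h
    · have hmem : M ((L m).max' h) ≤ m :=
        (mem_filter.1 (Finset.max'_mem (L m) h)).2
      rcases min_choice (E m) (1 / (((L m).max' h : ℕ) + 1 : ℝ)) with h1 | h1
      · rw [h1]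
        exact hE m hm
      · rw [h1]
        exact hM _ m hmem hm
    · exact hE m hm

end Pool.Agent.H28.MCL
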