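import Pool.Agent.H28.MCL.Targets

/-! Module FNL of the project MCL. -/

set_option autoImplicit false

open Finset

namespace Pool.Agent.H28.MCL

theorem fnl : T_FNL := by
  intro m q n₀ τ F G w N H T M V ζ η hM hV hη hw herr hsq hlow hs
  have h1 : lhs q n₀ τ F w N H T ≤ lhs q n₀ τ G w N H T +
      ∑ t ∈ bx m T q τ, ∑ n ∈ iv N H q n₀, |∏ l, F l (n + t l) - ∏ l, G l (n + t l)| := by
    unfold lhs
    rw [← Finset.sum_add_distrib]
    refine Finset.sum_le_sum fun t _ => ?_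
    have e : ∑ n ∈ iv N H q n₀, w n * ∏ l, F l (n + t l) =
        ∑ n ∈ iv N H q n₀, w n * ∏ l, G l (n + t l) +
          ∑ n ∈ iv N H q n₀, w n * (∏ l, F l (n + t l) - ∏ l, G l (n + t l)) := by
      rw [← Finset.sum_add_distrib]
      exact Finset.sum_congr rfl fun n _ => by ring
    rw [e]
    refine (abs_add_le _ _).trans (add_le_add le_rfl ?_)
    refine (Finset.abs_sum_le_sum_abs _ _).trans (Finset.sum_le_sum fun n _ => ?_)
    rw [abs_mul]
    exact mul_le_of_le_one_left (abs_nonneg _) (hw n)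
  have h2 : rhs q n₀ τ G N H T ≤ rhs q n₀ τ F N H T +
      ∑ t ∈ bx m T q τ, ∑ n ∈ iv N H q n₀, |∏ l, F l (n + t l) - ∏ l, G l (n + t l)| := by
    unfold rhs
    rw [← Finset.sum_add_distrib]
    refine Finset.sum_le_sum fun t _ => ?_
    rw [← Finset.sum_add_distrib]
    refine Finset.sum_le_sum fun n _ => ?_
    rw [← Finset.abs_prod, ← Finset.abs_prod]
    have := abs_sub_abs_le_abs_sub (∏ l, G l (n + t l)) (∏ l, F l (n + t l))
    rw [abs_sub_comm] at this
    linarith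
  have h3 : lhs q n₀ τ G w N H T ≤ M * Real.sqrt V := by
    have h4 : lhs q n₀ τ G w N H T ≤ Real.sqrt (M ^ 2 * V) := Real.le_sqrt_of_sq_le hsq
    rwa [Real.sqrt_mul (sq_nonneg M), Real.sqrt_sq hM] at h4
  have h5 : (1 - 2 * ζ) * M ≤ rhs q n₀ τ F N H T := by linarith
  have h6 : lhs q n₀ τ F w N H T ≤ M * (Real.sqrt V + ζ) := by linarith
  calc lhs q n₀ τ F w N H T ≤ M * (Real.sqrt V + ζ) := h6
    _ ≤ M * (η * (1 - 2 * ζ)) := mul_le_mul_of_nonneg_left hs hM
    _ = η * ((1 - 2 * ζ) * M) := by ring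
    _ ≤ η * rhs q n₀ τ F N H T := mul_le_mul_of_nonneg_left h5 hη

end Pool.Agent.H28.MCL
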