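import Pool.Agent.H28.MCL.Targets

/-!
The final theorem of the project MCL in explicit form.
-/

set_option autoImplicit false

open Finset Filter Topology

namespace Pool.Agent.H28.MCL

open Pool.Agent.H24.T2 (Fr)

open Classical in
/-- The final theorem without auxiliary definitions. -/
theorem fin_explicit (hF : T_FIN) (k : ℕ) (δ : ℝ) (hδ : 0 < δ) :
    ∃ ρ : ℕ → ℝ, (∀ m, 1 ≤ m → ρ m < 1) ∧ Tendsto ρ atTop (𝓝 0) ∧
      ∀ (m : ℕ) (r : Fin m → ℕ) (α : (l : Fin m) → Fin (r l) → ℤ)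
        (ε : (l : Fin m) → Fin (r l) → ℕ) (q n₀ : ℕ) (τ : Fin m → ℕ), 1 ≤ m →
        (∀ l, Function.Injective (α l)) → (∀ l i, 1 ≤ ε l i) → (∀ l, ∃ i, Odd (ε l i)) →
        (∀ l, (univ.filter (fun i => Odd (ε l i))).card ≤ k) → 0 < q →
        ∃ K : ℕ, ∀ x y : ℕ, 0 < x → K * x ≤ y →
          ∑ N ∈ (Icc x y).filter (fun N => ∃ (H T : ℕ) (w : ℕ → ℝ),
              K ≤ H ∧ H ≤ N ∧ K ≤ T ∧ T ≤ N ∧ (∀ n, |w n| ≤ 1) ∧
              ρ m * (∑ t ∈ (Fintype.piFinset (fun _ : Fin m => Icc 1 T)).filter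
                  (fun t => ∀ l, t l ≡ τ l [MOD q]),
                ∑ n ∈ (Ioc (N - H) N).filter (fun n => n ≡ n₀ [MOD q]),
                  ∏ l, |∏ i, ((ArithmeticFunction.moebius
                    ((((n + t l : ℕ) : ℤ) + α l i).toNat) : ℤ) : ℝ) ^ ε l i|) <
              ∑ t ∈ (Fintype.piFinset (fun _ : Fin m => Icc 1 T)).filter
                  (fun t => ∀ l, t l ≡ τ l [MOD q]),
                |∑ n ∈ (Ioc (N - H) N).filter (fun n => n ≡ n₀ [MOD q]),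
                  w n * ∏ l, ∏ i, ((ArithmeticFunction.moebius
                    ((((n + t l : ℕ) : ℤ) + α l i).toNat) : ℤ) : ℝ) ^ ε l i|),
            (1 : ℝ) / N ≤ δ * Real.log ((y : ℝ) / x) := by
  obtain ⟨ρ, h1, h2, h3⟩ := hF k δ hδ
  refine ⟨ρ, h1, h2, fun m r α ε q n₀ τ hm hα hε hodd hk hq => ?_⟩
  exact h3 m hm r α ε q n₀ τ hα hε hodd hk hq

end Pool.Agent.H28.MCL
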