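import Pool.Agent.H28.MCL.TargetsU

/-!
The final theorem of the project MCL, uniform and explicit.
-/

set_option autoImplicit false

open Finset Filter Topology

namespace Pool.Agent.H28.MCL

open Pool.Agent.H24.T2 (Fr)

open Classical in
/-- The final theorem without auxiliary definitions. -/
theorem fiu_explicit (hF : T_FIU) :
    ∃ c : ℝ, 0 < c ∧ ∀ (δ : ℝ) (m : ℕ) (r : Fin m → ℕ) (α : (l : Fin m) → Fin (r l) → ℤ)
      (ε : (l : Fin m) → Fin (r l) → ℕ) (q n₀ : ℕ) (τ : Fin m → ℕ), 0 < δ → δ ≤ 1 → 1 ≤ m →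
      (∀ l, Function.Injective (α l)) → (∀ l i, 1 ≤ ε l i) → (∀ l, ∃ i, Odd (ε l i)) → 0 < q →
      ∃ K : ℕ, ∀ x y : ℕ, 0 < x → K * x ≤ y →
        ∑ N ∈ (Icc x y).filter (fun N => ∃ (H T : ℕ) (w : ℕ → ℝ),
            K ≤ H ∧ H ≤ N ∧ K ≤ T ∧ T ≤ N ∧ (∀ n, |w n| ≤ 1) ∧
            min (1 - c * δ ^ 4 / (m : ℝ) ^ 4) ((1 / (δ ^ 4 * (m : ℝ))) ^ ((1 : ℝ) / 9) / c) *
              (∑ t ∈ (Fintype.piFinset (fun _ : Fin m => Icc 1 T)).filter
                  (fun t => ∀ l, t l ≡ τ l [MOD q]),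
                ∑ n ∈ (Ioc (N - H) N).filter (fun n => n ≡ n₀ [MOD q]),
                  ∏ l, |∏ i, ((ArithmeticFunction.moebius
                    ((((n + t l : ℕ) : ℤ) + α l i).toNat) : ℤ) : ℝ) ^ ε l i|) <
              ∑ t ∈ (Fintype.piFinset (fun _ : Fin m => Icc 1 T)).filter
                  (fun t => ∀ l, t l ≡ τ l [MOD q]),
                |∑ n ∈ (Ioc (N - H) N).filter (fun n => n ≡ n₀ [MOD q]),
                  w n * ∏ l, ∏ i, ((ArithmeticFunction.moebius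
                    ((((n + t l : ℕ) : ℤ) + α l i).toNat) : ℤ) : ℝ) ^ ε l i|),
          (1 : ℝ) / N ≤ δ * Real.log ((y : ℝ) / x) := by
  obtain ⟨c, hc, h⟩ := hF
  refine ⟨c, hc, fun δ m r α ε q n₀ τ hδ hδ1 hm hα hε hodd hq => ?_⟩
  exact h δ hδ hδ1 (Finset.univ.sup fun l => (univ.filter (fun i => Odd (ε l i))).card) m hm
    r α ε q n₀ τ hα hε hodd (fun l => Finset.le_sup (f := fun l =>
      (univ.filter (fun i => Odd (ε l i))).card) (mem_univ l)) hq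

end Pool.Agent.H28.MCL
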