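import Pool.Agent.H28.MCL.BAV
import Pool.Agent.H28.MCL.FNL
import Pool.Agent.H28.MCL.FIN
import Pool.Agent.H28.MCL.Fin
import Pool.Agent.H28.MCL.BCO
import Pool.Agent.H28.MCL.BBU
import Pool.Agent.H28.MCL.CBU
import Pool.Agent.H28.MCL.FinU
import Pool.Agent.H74.MCL.GLU
import Pool.Agent.H14.MCL.LDB
import Pool.Agent.H14.MCL.LDC
import Pool.Agent.H48.MCL.LDM
import Pool.Agent.H16.MCL.BLA
import Pool.Agent.H39.MCL.BLB
import Pool.Agent.H75.MCL.BLK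
import Pool.Agent.H75.MCL.DTB
import Pool.Agent.H24.MCL.TLL
import Pool.Agent.H1.MCL.TLZ
import Pool.Agent.H1.MCL.ZCO
import Pool.Agent.H85.MCL.SYM
import Pool.Agent.H3.MCL.WIN
import Pool.Agent.H3.MCL.MXL
import Pool.Agent.H19.MCL.MXR
import Pool.Agent.H19.MCL.BBR
import Pool.Agent.H19.MCL.NRM
import Pool.Agent.H19.MCL.COA
import Pool.Agent.H70.MCL.MXG
import Pool.Agent.H23.MCL.MAX
import Pool.Agent.H23.MCL.ERR
import Pool.Agent.H23.MCL.ERS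
import Pool.Agent.H26.MCL.SQD
import Pool.Agent.H61.MCL.VDC
import Pool.Agent.H35.MCL.CNT
import Pool.Agent.H99.MCL.DTQ
import Pool.Agent.H99.MCL.PRB
import Pool.Agent.H98.MCL.SUB
import Pool.Agent.H40.MCL.PRA
import Pool.Agent.H40.MCL.COB
import Pool.Agent.H86.MCL.DTA
import Pool.Agent.H81.MCL.LOW
import Pool.Agent.H56.MCL.LGC
import Pool.Agent.H36.MCL.AVG
import Pool.Agent.H36.MCL.CSQ
import Pool.Agent.H36.MCL.YBD
import Pool.Agent.H59.MCL.GEN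
import Pool.Agent.H59.MCL.POS

/-! Assembly of the project MCL. -/

set_option autoImplicit false

namespace Pool.Agent.H28.MCL.All

open Pool.Agent.H28.MCL

theorem x_LDB : T_LDB := Pool.Agent.H14.MCL.ldb
theorem x_LDC : T_LDC := Pool.Agent.H14.MCL.ldc
theorem x_LDM : T_LDM := Pool.Agent.H48.MCL.ldm x_LDC
theorem x_LGC : T_LGC := Pool.Agent.H56.MCL.lgc
theorem x_BLA : T_BLA := Pool.Agent.H16.MCL.bla
theorem x_BLB : T_BLB := Pool.Agent.H39.MCL.blb x_LGC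
theorem x_BLK : T_BLK := Pool.Agent.H75.MCL.blk x_BLA x_BLB x_LGC
theorem x_GLU : T_GLU := Pool.Agent.H74.MCL.glu
theorem x_TL : T_TL := Pool.Agent.H24.MCL.tll x_LDB x_LDM x_BLK x_GLU
theorem x_TLZ : T_TLZ := Pool.Agent.H1.MCL.tlz x_TL
theorem x_SYM : T_SYM := Pool.Agent.H85.MCL.sym
theorem x_WIN : T_WIN := Pool.Agent.H3.MCL.win x_TLZ x_SYM
theorem x_MXL : T_MXL := Pool.Agent.H3.MCL.mxl
theorem x_MXR : T_MXR := Pool.Agent.H19.MCL.mxr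
theorem x_MXG : T_MXG := Pool.Agent.H70.MCL.mxg
theorem x_MAX : T_MAX := Pool.Agent.H23.MCL.max x_MXL x_MXR x_MXG
theorem x_BBR : T_BBR := Pool.Agent.H19.MCL.bbr x_WIN bav
theorem x_SQD : T_SQD := Pool.Agent.H26.MCL.sqd
theorem x_ERR : T_ERR := Pool.Agent.H23.MCL.err x_SQD bav
theorem x_POS : T_POS := Pool.Agent.H59.MCL.pos
theorem x_VDC : T_VDC := Pool.Agent.H61.MCL.vdc
theorem x_CNT : T_CNT := Pool.Agent.H35.MCL.cnt
theorem x_CSQ : T_CSQ := Pool.Agent.H36.MCL.csq x_CNT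
theorem x_DTQ : T_DTQ := Pool.Agent.H99.MCL.dtq x_CSQ x_VDC x_CNT
theorem x_SUB : T_SUB := Pool.Agent.H98.MCL.sub
theorem x_YBD : T_YBD := Pool.Agent.H36.MCL.ybd x_SUB
theorem x_AVG : T_AVG := Pool.Agent.H36.MCL.avg x_CNT
theorem x_PRA : T_PRA := Pool.Agent.H40.MCL.pra
theorem x_PRB : T_PRB := Pool.Agent.H99.MCL.prb
theorem x_NRM : T_NRM := Pool.Agent.H19.MCL.nrm
theorem x_DTA : T_DTA := Pool.Agent.H86.MCL.dta x_DTQ x_YBD x_AVG x_PRA x_NRM x_CNT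
theorem x_DTB : T_DTB := Pool.Agent.H75.MCL.dtb x_DTQ x_YBD x_AVG x_PRB x_NRM x_CNT
theorem x_LOW : T_LOW := Pool.Agent.H81.MCL.low x_CNT
theorem x_ERS : T_ERS := Pool.Agent.H23.MCL.ers x_AVG
theorem x_GEN : T_GEN := Pool.Agent.H59.MCL.gen x_MAX bav x_ERR x_POS x_LOW x_ERS fnl
theorem x_COA : T_COA := Pool.Agent.H19.MCL.coa x_BBR x_DTA x_GEN
theorem x_COB : T_COB := Pool.Agent.H40.MCL.cob x_BBR x_DTB x_GEN
theorem x_FIN : T_FIN := fin x_COA x_COB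

/-- The uniform chain from the uniform local gap. -/
theorem x_FIU (hT : T_TLU) : T_FIU :=
  fiu (cau (bbu hT Pool.Agent.H1.MCL.zco x_SYM (bco bav)) x_DTA x_GEN)
    (cbu (bbu hT Pool.Agent.H1.MCL.zco x_SYM (bco bav)) x_DTB x_GEN)

end Pool.Agent.H28.MCL.All
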