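import Pool.Agent.H28.MCL.Targets

/-!
Statements for the version of the project MCL which is uniform in the number of points, with
explicit dependence on `δ` and `m`.
-/

set_option autoImplicit false

open Finset Filter Topology

namespace Pool.Agent.H28.MCL

open Pool.Agent.H24.MR (lam FinAddInv)
open Pool.Agent.H24.T2 (Fr MRprop)

/-- [TLU] The local gap for products of values of the Liouville function, uniform in the number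
of points. -/
def T_TLU : Prop :=
  ∃ c : ℝ, 0 < c ∧ ∀ δ : ℝ, 0 < δ → δ ≤ 1 →
    ∀ (k : ℕ) (β : Fin k → ℕ) (Q a : ℕ), 0 < k → 0 < Q → Even Q → Function.Injective β →
      ∃ h₀ : ℕ, ∀ h, h₀ ≤ h → Bd (ind (Bad (fun y => ∏ i, lam (y + β i)) (c * δ ^ 4) Q a h)) δ

/-- [ZCO] The core of TLZ, for a fixed set of shifts and a fixed constant. -/
def T_ZCO : Prop :=
  ∀ (δ κ : ℝ) (S : Finset ℤ) (Q a : ℕ), 0 < δ → 0 < κ → κ ≤ 1 → S.Nonempty → 0 < Q →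
    (∀ (k : ℕ) (β : Fin k → ℕ), 0 < k → Function.Injective β →
      ∃ h₀ : ℕ, ∀ h, h₀ ≤ h → Bd (ind (Bad (fun y => ∏ i, lam (y + β i)) κ Q a h)) (δ / 2)) →
    ∃ h₀ : ℕ, ∀ h, h₀ ≤ h → Bd (ind (Bad (gs S) κ Q a h)) δ

/-- [BCO] The core of BBR, for a fixed constant. -/
def T_BCO : Prop :=
  ∀ (k : ℕ) (δ κ : ℝ), 0 < δ → 0 < κ → κ ≤ 1 →
    (∀ (S : Finset ℤ) (W a Δ : ℕ), S.Nonempty → S.card ≤ k → 0 < W → Even W → 0 < Δ →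
      ∃ h₀ : ℕ, ∀ h, h₀ ≤ h → Bd (ind (Bad (fun y => gs S y * gs S (y + Δ)) κ W a h)) δ) →
    ∀ m D : ℕ, 1 ≤ m → 2 ≤ D → BBp k m D κ δ

/-- [BBU] The bad windows have small density, uniformly in the number of points. -/
def T_BBU : Prop :=
  ∃ c : ℝ, 0 < c ∧ c ≤ 1 ∧ ∀ δ : ℝ, 0 < δ → δ ≤ 1 → ∀ k m D : ℕ, 1 ≤ m → 2 ≤ D →
    BBp k m D (c * δ ^ 4) δ

/-- [CBU] Any number of clusters, explicit constant. -/
def T_CBU : Prop :=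
  ∃ c : ℝ, 0 < c ∧ c ≤ 1 ∧ ∀ δ : ℝ, 0 < δ → δ ≤ 1 → ∀ k m : ℕ, 1 ≤ m →
    Cor k m δ (1 - c * δ ^ 4 / (m : ℝ) ^ 4)

/-- [CAU] Many clusters, explicit constant. -/
def T_CAU : Prop :=
  ∃ c : ℝ, 0 < c ∧ c ≤ 1 ∧ ∀ δ : ℝ, 0 < δ → δ ≤ 1 → ∀ k m : ℕ, 1 ≤ m →
    (1 / (δ ^ 4 * (m : ℝ))) ^ ((1 : ℝ) / 9) / c < 1 →
    Cor k m δ ((1 / (δ ^ 4 * (m : ℝ))) ^ ((1 : ℝ) / 9) / c)

/-- [FIU] The final theorem, explicit constants. -/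
def T_FIU : Prop :=
  ∃ c : ℝ, 0 < c ∧ ∀ δ : ℝ, 0 < δ → δ ≤ 1 → ∀ k m : ℕ, 1 ≤ m →
    Cor k m δ (min (1 - c * δ ^ 4 / (m : ℝ) ^ 4)
      ((1 / (δ ^ 4 * (m : ℝ))) ^ ((1 : ℝ) / 9) / c))

end Pool.Agent.H28.MCL
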