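import Pool.Agent.H28.MCL.Defs

/-!
Statements of the modules of the project MCL (local means and products of many clusters) on
`MP_c59857_nt`.
-/

set_option autoImplicit false

open Finset Filter Topology

namespace Pool.Agent.H28.MCL

open Pool.Agent.H24.MR (lam FinAddInv StatementMR)
open Pool.Agent.H24.T2 (Fr MRprop StatementLOC)
open Pool.Agent.H27.T2 (good)

/-! ## Part L: logarithmic density on long windows -/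

open Classical in
/-- [LDB] Properties of `ldB`. -/
def T_LDB : Prop :=
  ∀ (U : Ultrafilter ℕ) (x y : ℕ → ℕ), Aw U x y →
    FinAddInv (ldB U x y) ∧
    (∀ (A : Set ℕ) (p : ℕ), 0 < p → ldB U x y {z | p ∣ z ∧ z / p ∈ A} = ldB U x y A / p) ∧
    (∀ (A : Set ℕ) (p : ℕ), 0 < p → ldB U x y {z | z / p ∈ A} = ldB U x y A) ∧
    (∀ (A : Set ℕ) (c : ℝ), (∀ᶠ j in (U : Filter ℕ),
      ∑ n ∈ (Finset.Icc (x j) (y j)).filter (fun n => n ∈ A), (1 : ℝ) / n ≤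
        c * Real.log ((y j : ℝ) / x j)) → ldB U x y A ≤ c) ∧
    (∀ (A : Set ℕ) (c : ℝ), (∀ᶠ j in (U : Filter ℕ), c * Real.log ((y j : ℝ) / x j) ≤
      ∑ n ∈ (Finset.Icc (x j) (y j)).filter (fun n => n ∈ A), (1 : ℝ) / n) → c ≤ ldB U x y A)

open Classical in
/-- [LDC] An upper bound for `ldB` from the counting function. -/
def T_LDC : Prop :=
  ∀ (U : Ultrafilter ℕ) (x y : ℕ → ℕ), Aw U x y →
    ∀ (A : Set ℕ) (c C₁ C₂ : ℝ), 0 ≤ C₂ → (∀ n : ℕ,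
      (((Finset.range n).filter (fun m => m ∈ A)).card : ℝ) ≤ c * n + C₁ + C₂ * Real.sqrt n) →
      ldB U x y A ≤ c

/-- [LDM] The Matomaki-Radziwill property. -/
def T_LDM : Prop :=
  ∀ (U : Ultrafilter ℕ) (x y : ℕ → ℕ), Aw U x y → MRprop (ldB U x y)

/-! ## Part T: the local gap for the Liouville function -/

/-- [LGC] The logarithmic sum over one class. -/
def T_LGC : Prop :=
  ∀ h o x y : ℕ, 0 < h → 0 < x → x ≤ y →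
    ∑ n ∈ (Finset.Icc x y).filter (fun n => n ≡ o [MOD h]), (1 : ℝ) / n ≤
      1 + Real.log ((y : ℝ) / x) / h

open Classical in
/-- [BLA] The support of the local sign. -/
def T_BLA : Prop :=
  ∀ (f : ℕ → ℝ) (κ : ℝ) (Q c h o x y : ℕ), 0 < h → o < h → 0 < x →
    (h : ℝ) * ∑ n ∈ (Finset.Icc x y).filter (fun n => Bad f κ Q c h n ∧ n ≡ o [MOD h]),
        (1 : ℝ) / n ≤
      ∑ m ∈ (Finset.Icc x y).filter (fun m => lc f κ Q c h o m ≠ 0), (1 : ℝ) / m + 4 * h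

open Classical in
/-- [BLB] The opposite signs. -/
def T_BLB : Prop :=
  ∀ (f : ℕ → ℝ) (κ : ℝ) (Q c h o x y : ℕ), (∀ n, f n = 1 ∨ f n = -1) → 0 < κ → 0 < Q →
    0 < h → o < h → 0 < x → x ≤ y →
    ∑ m ∈ (Finset.Icc x y).filter (fun m => m ≡ c [MOD Q] ∧ lc f κ Q c h o m ≠ 0 ∧
        f m ≠ (lc f κ Q c h o m : ℝ)), (1 : ℝ) / m ≤
      (κ * h / Q + 1) / 2 * (1 + Real.log ((y : ℝ) / x) / h) + h

open Classical in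
/-- [BLK] Many bad windows give a slowly varying sign. -/
def T_BLK : Prop :=
  ∀ (f : ℕ → ℝ) (κ δ : ℝ) (Q c : ℕ), (∀ n, f n = 1 ∨ f n = -1) → 0 < κ → 0 < δ → 0 < Q →
    ∃ h₁ : ℕ, ∀ h, h₁ ≤ h → ∃ K : ℕ, ∀ x y : ℕ, 0 < x → K * x ≤ y →
      δ * Real.log ((y : ℝ) / x) <
        ∑ n ∈ (Finset.Icc x y).filter (fun n => Bad f κ Q c h n), (1 : ℝ) / n →
      ∃ τ : ℕ → ℤ, Lv f Q c (δ / 2) (κ / Q) (3 / h) x y τ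

open Classical in
/-- [GLU] Gluing the levels. -/
def T_GLU : Prop :=
  ∀ (f : ℕ → ℝ) (Q c : ℕ) (δ θ : ℝ), 0 ≤ θ →
    (∀ i : ℕ, ∃ (x y : ℕ) (τ : ℕ → ℤ), 0 < x ∧ i * x ≤ y ∧
      Lv f Q c δ θ (1 / ((i : ℝ) + 1)) x y τ) →
    ∃ (x y : ℕ → ℕ) (τ : ℕ → ℤ), (∀ j, 0 < x j) ∧
      Tendsto (fun j => Real.log ((y j : ℝ) / x j)) atTop atTop ∧
      (∀ m, τ m = 0 ∨ τ m = 1 ∨ τ m = -1) ∧
      ∀ ζ : ℝ, 0 < ζ → ∀ᶠ j in atTop, Lv f Q c (δ - ζ) (θ + ζ) ζ (x j) (y j) τ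

open Classical in
/-- [TL] The local gap for products of values of the Liouville function. -/
def T_TL : Prop :=
  ∀ (k : ℕ) (δ : ℝ), 0 < δ → ∃ κ : ℝ, 0 < κ ∧
    ∀ (k' : ℕ) (β : Fin k' → ℕ) (Q c : ℕ), 0 < k' → k' ≤ k → 0 < Q → Even Q →
      Function.Injective β → ∃ h₀ : ℕ, ∀ h, h₀ ≤ h →
      Bd (ind (Bad (fun y => ∏ i, lam (y + β i)) κ Q c h)) δ

/-- [TLZ] The same for integer shifts. -/
def T_TLZ : Prop :=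
  ∀ (k : ℕ) (δ : ℝ), 0 < δ → ∃ κ : ℝ, 0 < κ ∧ κ ≤ 1 ∧
    ∀ (S : Finset ℤ) (Q c : ℕ), S.Nonempty → S.card ≤ k → 0 < Q → Even Q →
      ∃ h₀ : ℕ, ∀ h, h₀ ≤ h → Bd (ind (Bad (gs S) κ Q c h)) δ

/-- [SYM] Two values at distance `Δ`. -/
def T_SYM : Prop :=
  ∀ (S : Finset ℤ) (Δ : ℕ), S.Nonempty → 0 < Δ → ∃ S' : Finset ℤ, S'.Nonempty ∧
    S'.card ≤ 2 * S.card ∧ ∀ y : ℕ, gs S y * gs S (y + Δ) = gs S' y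

/-- [WIN] The local gap for two values at distance `Δ`. -/
def T_WIN : Prop :=
  ∀ (k : ℕ) (δ : ℝ), 0 < δ → ∃ κ : ℝ, 0 < κ ∧ κ ≤ 1 ∧
    ∀ (S : Finset ℤ) (W a Δ : ℕ), S.Nonempty → S.card ≤ k → 0 < W → Even W → 0 < Δ →
      ∃ h₀ : ℕ, ∀ h, h₀ ≤ h → Bd (ind (Bad (fun y => gs S y * gs S (y + Δ)) κ W a h)) δ

/-! ## Part M: the maximal inequality -/

/-- [MXL] Short intervals on the left. -/
def T_MXL : Prop :=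
  ∀ (b : ℕ → ℝ) (θ : ℝ) (x y : ℕ) (S : Finset ℕ), (∀ n, 0 ≤ b n) → 0 < θ → 0 < x →
    S ⊆ Finset.Icc x y →
    (∀ N ∈ S, ∃ H : ℕ, 1 ≤ H ∧ 2 * H ≤ N ∧ θ * H < ∑ n ∈ Finset.Ioc (N - H) N, b n) →
    ∑ N ∈ S, (1 : ℝ) / N ≤ 2 / θ * ∑ n ∈ Finset.Icc ((x + 1) / 2) y, b n / n

/-- [MXR] Intervals on the right. -/
def T_MXR : Prop :=
  ∀ (b : ℕ → ℝ) (θ : ℝ) (x y : ℕ) (S : Finset ℕ), (∀ n, 0 ≤ b n) → 0 < θ → 0 < x →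
    S ⊆ Finset.Icc x y →
    (∀ N ∈ S, ∃ H : ℕ, 1 ≤ H ∧ H ≤ N ∧ θ * H < ∑ n ∈ Finset.Ioc N (N + H), b n) →
    ∑ N ∈ S, (1 : ℝ) / N ≤ 2 / θ * ∑ n ∈ Finset.Icc x (2 * y), b n / n

/-- [MXG] Long intervals on the left. -/
def T_MXG : Prop :=
  ∀ (b : ℕ → ℝ) (θ : ℝ) (x y : ℕ) (S : Finset ℕ), (∀ n, 0 ≤ b n) → (∀ n, b n ≤ 1) → 0 < θ →
    0 < x → S ⊆ Finset.Icc x y →
    (∀ N ∈ S, ∃ H : ℕ, N < 2 * H ∧ H ≤ N ∧ θ * H < ∑ n ∈ Finset.Ioc (N - H) N, b n) →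
    ∑ N ∈ S, (1 : ℝ) / N ≤ 4 / θ * (1 + ∑ n ∈ Finset.Icc x y, b n / n)

/-- [MAX] The maximal inequality. -/
def T_MAX : Prop :=
  ∀ (b : ℕ → ℝ) (δ θ : ℝ), (∀ n, 0 ≤ b n) → (∀ n, b n ≤ 1) → 0 < δ → 0 < θ → Bd b δ →
    Bd (ind (fun N => ¬ Gd b θ N)) (12 * δ / θ)

/-- [BAV] Averages. -/
def T_BAV : Prop :=
  ∀ (ι : Type) [Fintype ι] (b : ι → ℕ → ℝ) (c : ι → ℝ) (δ : ℝ), 0 ≤ δ → (∀ i, 0 ≤ c i) →
    ∑ i, c i ≤ 1 → (∀ i, Bd (b i) δ) → Bd (fun n => ∑ i, c i * b i n) δ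

/-- [BBR] The bad windows have small density, with `κ` depending on `k` and `δ` only. -/
def T_BBR : Prop :=
  ∀ (k : ℕ) (δ : ℝ), 0 < δ → ∃ κ : ℝ, 0 < κ ∧ κ ≤ 1 ∧ ∀ m D : ℕ, 1 ≤ m → 2 ≤ D →
    BBp k m D κ δ

/-! ## Part S: squares -/

/-- [SQD] Divisibility by the square of a large prime. -/
def T_SQD : Prop :=
  ∀ (w : ℕ) (a : ℤ), 0 < w →
    Bd (ind (fun n => ∃ p : ℕ, p.Prime ∧ w < p ∧ (p : ℤ) ^ 2 ∣ (n : ℤ) + a)) (4 / w)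

/-- [ERR] Approximation of the product of Möbius values. -/
def T_ERR : Prop :=
  ∀ (r : ℕ) (α : Fin r → ℤ) (ε : Fin r → ℕ) (q n₀ w W : ℕ), Function.Injective α →
    (∀ i, 1 ≤ ε i) → 0 < q → 0 < w → 0 < W → q ∣ W →
    (∀ p : ℕ, p.Prime → p ≤ w → p ^ 2 ∣ W) →
    Bd (ind (fun y => y ≡ n₀ [MOD q] ∧
      Fr α ε y ≠ if y % W ∈ good α q n₀ w W then gs (od α ε) y else 0)) ((4 * r + 1) / w)

/-- [POS] A positive proportion of the classes is good. -/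
def T_POS : Prop :=
  ∀ (r : ℕ) (α : Fin r → ℤ) (ε : Fin r → ℕ) (q n₀ : ℕ), Function.Injective α →
    (∀ i, 1 ≤ ε i) → (∃ i, Odd (ε i)) → 0 < q → (∃ y : ℕ, y ≡ n₀ [MOD q] ∧ Fr α ε y ≠ 0) →
    ∃ c : ℝ, 0 < c ∧ ∀ w W : ℕ, 0 < W → q ∣ W → (∀ p : ℕ, p.Prime → p ≤ w → p ^ 2 ∣ W) →
      c * W ≤ ((good α q n₀ w W).card : ℝ)

/-! ## Part D: the deterministic bound at a good `N` -/

/-- [VDC] The inequality of van der Corput in a progression. -/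
def T_VDC : Prop :=
  ∀ (u : ℕ → ℝ) (W D N H c : ℕ), 0 < W → 0 < D → H ≤ N →
    (∑ n ∈ iv N H W c, u n) ^ 2 ≤ (((H : ℝ) / W + 1 + D) / (D : ℝ) ^ 2) *
      (D * ∑ n ∈ iv N H W c, u n ^ 2 + 2 * ∑ j ∈ Finset.Ico 1 D, ((D : ℝ) - j) *
        ∑ n ∈ (iv N H W c).filter (fun n => n + j * W ≤ N), u n * u (n + j * W))

/-- [CNT] Counting in classes. -/
def T_CNT : Prop :=
  ∀ (W n T : ℕ) (A : Finset ℕ), 0 < W → A ⊆ Finset.range W →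
    ((((Finset.Icc 1 T).filter (fun t => (n + t) % W ∈ A)).card : ℝ) ≤
      A.card * ((T : ℝ) / W + 1)) ∧
    ((A.card : ℝ) * ((T : ℝ) / W - 1) ≤
      (((Finset.Icc 1 T).filter (fun t => (n + t) % W ∈ A)).card : ℝ)) ∧
    ∀ N c : ℕ, T ≤ N → (((iv N T W c).card : ℝ) ≤ (T : ℝ) / W + 1) ∧
      ((T : ℝ) / W - 1 ≤ ((iv N T W c).card : ℝ))

/-- [CSQ] Classes of `n` and the Cauchy-Schwarz inequality. -/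
def T_CSQ : Prop :=
  ∀ (m q W n₀ : ℕ) (τ : Fin m → ℕ) (A : Fin m → Finset ℕ) (g : Fin m → ℕ → ℝ) (w : ℕ → ℝ)
    (N H T : ℕ), 0 < q → 0 < W → q ∣ W → (∀ l, A l ⊆ Finset.range W) → H ≤ N →
    (lhs q n₀ τ (gc W A g) w N H T) ^ 2 ≤ (W : ℝ) / q * pp W A T *
      ∑ t ∈ bx m T q τ, ∑ c ∈ (Finset.range W).filter (fun c => c ≡ n₀ [MOD q]),
        (∑ n ∈ iv N H W c, w n * ∏ l, gc W A g l (n + t l)) ^ 2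

/-- [DTQ] The bound by the functions `yy`. -/
def T_DTQ : Prop :=
  ∀ (m q W n₀ D : ℕ) (τ : Fin m → ℕ) (A : Fin m → Finset ℕ) (g : Fin m → ℕ → ℝ) (w : ℕ → ℝ)
    (N H T : ℕ), 0 < q → 0 < W → q ∣ W → 0 < D → (∀ l, A l ⊆ Finset.range W) →
    (∀ l, ∀ a ∈ A l, a ≡ n₀ + τ l [MOD q]) → (∀ l y, |g l y| ≤ 1) → (∀ n, |w n| ≤ 1) → H ≤ N →
    (lhs q n₀ τ (gc W A g) w N H T) ^ 2 ≤ (W : ℝ) / q * pp W A T *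
      ((((H : ℝ) / W + 1 + D) / (D : ℝ) ^ 2) *
        (D * (((H : ℝ) / q + 1) * pp W A T) + 2 * ∑ j ∈ Finset.Ico 1 D, ((D : ℝ) - j) *
          ∑ n ∈ iv N H q n₀, ∏ l, yy W A g T l j n))

/-- [SUB] Decomposition of a long window into short windows. -/
def T_SUB : Prop :=
  ∀ (f : ℕ → ℝ) (κ : ℝ) (W a h n T : ℕ), (∀ y, |f y| ≤ 1) → 0 < W → 0 < h → 0 < κ → κ ≤ 1 →
    |ws f W a n T| ≤ (T : ℝ) / W * (1 - κ) +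
      (κ / W + 1 / h) * ∑ s ∈ Finset.Icc 1 T, ind (Bad f κ W a h) (n + s) + (2 * h + 1)

/-- [YBD] The bound for `yy`. -/
def T_YBD : Prop :=
  ∀ (m W h T j n : ℕ) (κ ζ : ℝ) (A : Fin m → Finset ℕ) (g : Fin m → ℕ → ℝ) (l : Fin m),
    (∀ l, A l ⊆ Finset.range W) → (∀ l y, |g l y| ≤ 1) → 0 < W → 0 < h → 0 < T → 0 < κ →
    κ ≤ 1 → 0 < ζ → (W : ℝ) ≤ ζ / 2 * h → ((2 * h + 1) * W : ℝ) ≤ ζ / 2 * T →
    yy W A g T l j n ≤ (A l).card * ((T : ℝ) / W) *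
      (1 - κ * (1 - 1 / (T : ℝ) * ∑ s ∈ Finset.Icc 1 T, bc W κ h A g l j (n + s)) + ζ)

/-- [AVG] The average over the windows at a good `N`. -/
def T_AVG : Prop :=
  ∀ (b : ℕ → ℝ) (θ : ℝ) (q n₀ N H T : ℕ), (∀ n, 0 ≤ b n) → 0 < θ → 0 < q → q ≤ H → H ≤ N →
    q ≤ T → T ≤ N → Gd b θ N →
    ∑ n ∈ iv N H q n₀, 1 / (T : ℝ) * ∑ s ∈ Finset.Icc 1 T, b (n + s) ≤ 4 * θ * H / q

/-- [PRA] A product of many factors. -/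
def T_PRA : Prop :=
  ∀ (m : ℕ) (κ ζ : ℝ) (v : Fin m → ℝ), 1 ≤ m → 0 < κ → κ ≤ 1 → 0 ≤ ζ → ζ ≤ κ / 4 →
    (m : ℝ) * ζ ≤ 1 / 2 → (∀ l, 0 ≤ v l ∧ v l ≤ 1) →
    ∏ l, (1 - κ * (1 - v l) + ζ) ≤ 2 * Real.sqrt (1 - κ / 4) ^ m + 8 * (1 / (m : ℝ) * ∑ l, v l)

/-- [PRB] A product with one factor that is not one. -/
def T_PRB : Prop :=
  ∀ (m : ℕ) (κ ζ : ℝ) (v : Fin m → ℝ) (l : Fin m), 0 < κ → κ ≤ 1 → 0 ≤ ζ →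
    (m : ℝ) * ζ ≤ 1 / 2 → (∀ l, 0 ≤ v l ∧ v l ≤ 1) →
    ∏ l, (1 - κ * (1 - v l) + ζ) ≤ 1 - κ + κ * v l + 4 * m * ζ

/-- [NRM] The factors `1 + o(1)`. -/
def T_NRM : Prop :=
  ∀ (m D q W : ℕ) (ζ : ℝ), 0 < D → 0 < q → 0 < W → 0 < ζ → ∃ K : ℕ,
    ∀ (A : Fin m → Finset ℕ) (H T : ℕ), K ≤ H → K ≤ T →
      (W : ℝ) / q * pp W A T * ((H : ℝ) / W + 1 + D) ≤ (1 + ζ) * mm q W A H T ∧
      ((H : ℝ) / q + 1) * pp W A T ≤ (1 + ζ) * mm q W A H T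

/-- [DTA] The deterministic bound, many clusters. -/
def T_DTA : Prop :=
  ∀ (m D : ℕ) (κ θ : ℝ), 1 ≤ m → 2 ≤ D → 0 < κ → κ ≤ 1 → 0 < θ →
    DTp m D κ θ (1 / D + 4 * Real.sqrt (1 - κ / 4) ^ m + 64 * θ)

/-- [DTB] The deterministic bound, any number of clusters. -/
def T_DTB : Prop :=
  ∀ (m : ℕ) (κ θ : ℝ), 1 ≤ m → 0 < κ → κ ≤ 1 → 0 < θ → 8 * m * θ ≤ 1 →
    DTp m 2 κ θ (1 - κ / 4)

/-! ## Part F: the final theorem -/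

/-- [LOW] The trivial bound from below. -/
def T_LOW : Prop :=
  ∀ (m q W : ℕ) (ζ : ℝ), 0 < q → 0 < W → q ∣ W → 0 < ζ → ∃ K : ℕ,
    ∀ (n₀ : ℕ) (τ : Fin m → ℕ) (A : Fin m → Finset ℕ) (g : Fin m → ℕ → ℝ),
      (∀ l, A l ⊆ Finset.range W) → (∀ l, ∀ a ∈ A l, a ≡ n₀ + τ l [MOD q]) →
      (∀ l y, |g l y| = 1) → ∀ N H T : ℕ, K ≤ H → H ≤ N → K ≤ T →
      (1 - ζ) * mm q W A H T ≤ rhs q n₀ τ (gc W A g) N H T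

/-- [ERS] The error at a good `N`. -/
def T_ERS : Prop :=
  ∀ (m q n₀ : ℕ) (τ : Fin m → ℕ) (F G : Fin m → ℕ → ℝ) (θ : ℝ) (N H T : ℕ), 1 ≤ m → 0 < q →
    0 < θ → (∀ l y, |F l y| ≤ 1) → (∀ l y, |G l y| ≤ 1) → 1 ≤ H → H ≤ N → 1 ≤ T → T ≤ N →
    Gd (ee q n₀ τ F G) θ N →
    ∑ t ∈ bx m T q τ, ∑ n ∈ iv N H q n₀, |∏ l, F l (n + t l) - ∏ l, G l (n + t l)| ≤
      8 * m * θ * (T : ℝ) ^ m * H

/-- [FNL] The comparison. -/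
def T_FNL : Prop :=
  ∀ (m q n₀ : ℕ) (τ : Fin m → ℕ) (F G : Fin m → ℕ → ℝ) (w : ℕ → ℝ) (N H T : ℕ)
    (M V ζ η : ℝ), 0 ≤ M → 0 ≤ V → 0 ≤ η → (∀ n, |w n| ≤ 1) →
    (∑ t ∈ bx m T q τ, ∑ n ∈ iv N H q n₀, |∏ l, F l (n + t l) - ∏ l, G l (n + t l)| ≤ ζ * M) →
    (lhs q n₀ τ G w N H T) ^ 2 ≤ M ^ 2 * V → (1 - ζ) * M ≤ rhs q n₀ τ G N H T →
    Real.sqrt V + ζ ≤ η * (1 - 2 * ζ) →
    lhs q n₀ τ F w N H T ≤ η * rhs q n₀ τ F N H T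

/-- [GEN] The theorem with the constant `η` from the deterministic bound. -/
def T_GEN : Prop :=
  ∀ (k m D : ℕ) (δ θ κ V η : ℝ), 1 ≤ m → 2 ≤ D → 0 < δ → 0 < θ → 0 < κ → κ ≤ 1 → 0 ≤ V →
    Real.sqrt V < η → BBp k m D κ (δ * θ / 24) → DTp m D κ θ V → Cor k m δ η

/-- [COA] Many clusters. -/
def T_COA : Prop :=
  ∀ (k : ℕ) (δ η : ℝ), 0 < δ → 0 < η → ∃ m₀ : ℕ, ∀ m, m₀ ≤ m → 1 ≤ m → Cor k m δ η

/-- [COB] Any number of clusters. -/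
def T_COB : Prop :=
  ∀ (k m : ℕ) (δ : ℝ), 0 < δ → 1 ≤ m → ∃ η : ℝ, 0 < η ∧ η < 1 ∧ Cor k m δ η

/-- [FIN] The final theorem. -/
def T_FIN : Prop :=
  ∀ (k : ℕ) (δ : ℝ), 0 < δ → ∃ ρ : ℕ → ℝ, (∀ m, 1 ≤ m → ρ m < 1) ∧ Tendsto ρ atTop (𝓝 0) ∧
    ∀ m, 1 ≤ m → Cor k m δ (ρ m)

end Pool.Agent.H28.MCL
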