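import Pool.Agent.H28.MCL.Targets

/-! Module BAV of the project MCL. -/

set_option autoImplicit false

open Finset

namespace Pool.Agent.H28.MCL

theorem bav : T_BAV := by
  classical
  intro ι _ b c δ hδ hc hsum hb
  choose K hK using hb
  refine ⟨1 + ∑ i, K i, fun x y hx hy => ?_⟩
  have hxR : (0 : ℝ) < x := by exact_mod_cast hx
  have hxy : x ≤ y := by
    refine le_trans ?_ hy
    exact Nat.le_mul_of_pos_left x (by omega)
  have hL : 0 ≤ Real.log ((y : ℝ) / x) := by
    apply Real.log_nonneg
    rw [le_div_iff₀ hxR, one_mul]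
    exact_mod_cast hxy
  have e : ∑ n ∈ Finset.Icc x y, (∑ i, c i * b i n) / n =
      ∑ i, c i * ∑ n ∈ Finset.Icc x y, b i n / n := by
    simp only [Finset.mul_sum]
    rw [Finset.sum_comm]
    refine Finset.sum_congr rfl fun n _ => ?_
    rw [Finset.sum_div]
    exact Finset.sum_congr rfl fun i _ => by ring
  rw [e]
  have h1 : ∀ i, c i * ∑ n ∈ Finset.Icc x y, b i n / n ≤ c i * (δ * Real.log ((y : ℝ) / x)) := by
    intro i
    refine mul_le_mul_of_nonneg_left (hK i x y hx (le_trans ?_ hy)) (hc i)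
    apply Nat.mul_le_mul_right
    have := Finset.single_le_sum (f := K) (fun _ _ => Nat.zero_le _) (Finset.mem_univ i)
    omega
  refine (Finset.sum_le_sum fun i _ => h1 i).trans ?_
  rw [← Finset.sum_mul]
  exact mul_le_of_le_one_left (mul_nonneg hδ hL) hsum

end Pool.Agent.H28.MCL
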